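import Pool.Agent.H24.L5.Stmts
import Pool.Agent.H5.LQ.HCB
import Pool.Agent.H70.LQ.SBP

/-!
# L5, row CTK: from the entropy inequality to the counting form
-/

set_option autoImplicit false

namespace Pool.L5

open Finset Real
open Pool.Agent.H49.Ent Pool.Agent.H32.Dense
open Pool.Agent.H36.Dense (Sp wt wt_nonneg sum_wt Gf_bound Kf_bound)
open Pool.LQ (cl hcb_fam hcb_line hcb_point hcb_sum_ge sbp)

/-- The inequality in logarithmic form. -/
lemma ctk_log {d J N : ℕ} {P B₀ B₁ e G₀ κ : ℝ} (hP : 0 ≤ P) (hB₁ : 0 ≤ B₁)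
    (hA : Pool.LQ.Ag d 1 P B₀ B₁ e) (u : Fin N → Fin d → ℝ) (v : Fin N → Fin d → ℤ)
    (A : Fin N → Finset ℤ) (hN : 0 < N) (hκ : 0 < κ) (hinj : Function.Injective v)
    (hv : ∀ i k, |v i k| ≤ 2 ^ J) (hAs : ∀ i, A i ⊆ Finset.Ico 0 (2 ^ J : ℤ))
    (hdens : ∀ i, κ * 2 ^ J ≤ (A i).card)
    (hpot : ∀ i, ∀ x ∈ A i, ∑ y ∈ A i, ell (2 ^ J) x y ≤ G₀ * (A i).card) :
    Real.log N ≤ Real.log (∑ j ∈ Finset.Ico 0 (2 ^ J : ℤ), cl J u v A j) - J * Real.log 2 -
      P * Real.log κ + B₀ + B₁ * G₀ + e * (J * Real.log 2) := by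
  have hne : ∀ i, (A i).Nonempty := by
    intro i
    rw [← Finset.card_pos]
    have : (0 : ℝ) < (A i).card := lt_of_lt_of_le (by positivity) (hdens i)
    exact_mod_cast this
  have hfam := hcb_fam A (u := u) hN hne hinj hv hAs
  have hg := hA J (Sp A) Unit (wt A) (fun _ => ()) (fun ω => v ω.1) (fun ω => u ω.1)
    (fun ω => (ω.2 : ℤ)) hfam
  rw [hcb_line A hN hne hinj] at hg
  have hpoint := hcb_point A sbp (u := u) hN hne hinj hv hAs
  have hvi : Function.Injective fun i : Fin N => (v i, ()) := by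
    intro i j hij
    exact hinj (Prod.ext_iff.mp hij).1
  have hK : Kf (2 ^ J) (wt A) (bv (fun _ : Sp A => ()) (fun ω => v ω.1)) (fun ω => (ω.2 : ℤ)) ≤
      -Real.log κ :=
    Kf_bound A (fun i => (v i, ())) (2 ^ J) (by positivity) hN hne hvi hκ (by
      intro i
      push_cast
      exact hdens i)
  have hG : Gf (2 ^ J) (wt A) (bv (fun _ : Sp A => ()) (fun ω => v ω.1)) (fun ω => (ω.2 : ℤ)) ≤
      G₀ :=
    Gf_bound A (fun i => (v i, ())) (2 ^ J) hN hne hvi hpot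
  have p1 := mul_le_mul_of_nonneg_left hK hP
  have p2 := mul_le_mul_of_nonneg_left hG hB₁
  linarith

/-- ROW CTK. -/
theorem ctk : CTKStmt := by
  intro d g P hP hA ε hε G₀
  obtain ⟨B₀, B₁, hB₁, hAg⟩ := hA (ε - g) (by linarith)
  have hgε : g + (ε - g) = ε := by ring
  rw [hgε] at hAg
  refine ⟨Real.exp (-(B₀ + B₁ * G₀)), Real.exp_pos _, ?_⟩
  intro J N u v A κ hκ hinj hv hAs hdens hpot
  have hM : (0 : ℝ) < (2 : ℝ) ^ J := by positivity
  rcases Nat.eq_zero_or_pos N with h0 | hN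
  · subst h0
    rw [Nat.cast_zero, mul_zero, mul_zero]
    refine Finset.sum_nonneg fun j _ => ?_
    unfold cl
    positivity
  have hN' : (0 : ℝ) < N := by exact_mod_cast hN
  have hge2 := (hdens ⟨0, hN⟩).trans (hcb_sum_ge u v A hAs ⟨0, hN⟩)
  have hSpos : 0 < ∑ j ∈ Finset.Ico 0 (2 ^ J : ℤ), cl J u v A j :=
    lt_of_lt_of_le (by positivity) hge2
  have hm := ctk_log hP hB₁ hAg u v A hN hκ hinj hv hAs hdens hpot
  set LS := Real.log (∑ j ∈ Finset.Ico 0 (2 ^ J : ℤ), cl J u v A j) with hLS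
  have hexp : Real.exp LS = ∑ j ∈ Finset.Ico 0 (2 ^ J : ℤ), cl J u v A j :=
    Real.exp_log hSpos
  rw [← hexp]
  have hf1 : ((2 : ℝ) ^ J) ^ (-ε) = Real.exp (-(ε * (J * Real.log 2))) := by
    rw [Real.rpow_def_of_pos hM, Real.log_pow]
    congr 1
    ring
  have hf2 : (2 : ℝ) ^ J = Real.exp (J * Real.log 2) := by
    rw [← Real.log_pow, Real.exp_log hM]
  have hf3 : κ ^ P = Real.exp (P * Real.log κ) := by
    rw [Real.rpow_def_of_pos hκ]
    congr 1
    ring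
  have hf4 : (N : ℝ) = Real.exp (Real.log N) := (Real.exp_log hN').symm
  rw [hf1, hf3]
  rw [show ((2 : ℝ) ^ J * Real.exp (P * Real.log κ) * (N : ℝ)) =
    Real.exp (J * Real.log 2) * Real.exp (P * Real.log κ) * Real.exp (Real.log N) by
      rw [← hf2, ← hf4]]
  rw [← Real.exp_add, ← Real.exp_add, ← Real.exp_add, ← Real.exp_add]
  refine Real.exp_le_exp.mpr ?_
  linarith

end Pool.L5
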